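import Pool.Agent.Helper68.KPR.St

set_option autoImplicit false

namespace Pool.Agent.Helper60.KPR

open Pool.Agent.Helper68.KPR

theorem hRYT : StRYT := by
  intro P D K L _ _ _ _ _ _ _ _ _ _ _ _ _ _ _ _ _ _ _ _
  have hcP : CharZero P := algebraRat.charZero P
  have hcK : CharZero K := charZero_of_injective_algebraMap (IsFractionRing.injective P K)
  have hbc : IsBaseChange K (IsScalarTower.toAlgHom P D L).toLinearMap :=
    Algebra.IsAlgebraic.isBaseChange_of_isFractionRing P D K L
  have hnd : (Algebra.traceForm K L).Nondegenerate := traceForm_nondegenerate K L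
  refine ⟨?_, ?_, ?_⟩
  · intro T
    refine ⟨((Algebra.traceForm K L).toDual hnd).symm
      (hbc.lift ((Algebra.linearMap P K) ∘ₗ T)), fun b => ?_⟩
    have h1 := LinearMap.BilinForm.toDual_def hnd
      (m := ((Algebra.traceForm K L).toDual hnd).symm (hbc.lift ((Algebra.linearMap P K) ∘ₗ T)))
      (n := algebraMap D L b)
    rw [LinearEquiv.apply_symm_apply, Algebra.traceForm_apply] at h1
    rw [← h1]
    exact hbc.lift_eq _ b
  · intro y hy
    have h1 : (Algebra.traceForm K L).toDual hnd y = 0 := by
      refine hbc.algHom_ext _ _ fun b => ?_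
      rw [LinearMap.BilinForm.toDual_def, Algebra.traceForm_apply, LinearMap.zero_apply]
      exact hy b
    exact (LinearEquiv.map_eq_zero_iff _).mp h1
  · intro b
    have h1 : IsIntegral P (algebraMap D L b) :=
      (Algebra.IsIntegral.isIntegral (R := P) b).algebraMap
    obtain ⟨p, hp⟩ := IsIntegrallyClosed.isIntegral_iff.mp
      (Algebra.isIntegral_trace (L := K) h1)
    exact ⟨p, hp.symm⟩

end Pool.Agent.Helper60.KPR
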